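import Pool.Agent.Helper3.Hert.Spec

/-!
# HV-13: the classes of the monomials in `B4` form a basis of the Brieskorn lattice (helper83)
-/

open scoped PowerSeries

namespace Pool.Agent.Helper3.Hert

open Spec

noncomputable section

variable {O : Type*} [CommRing O] [IsDomain O] [Algebra ℂ O] (E : EvRing O)

namespace AsmBasis

theorem mem_T {g : O} : g ∈ E.T ↔ E.ev 0 g = g ∧ E.ev 1 g = g ∧ E.ev 2 g = g := Iff.rfl

/-- The derivation `d/dt` on the functions of `t`. -/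
def dT : Derivation ℂ E.T E.T :=
  Derivation.mk'
    { toFun := fun g => ⟨E.D 3 (g : O), by
        rw [mem_T]
        refine ⟨?_, ?_, ?_⟩
        · rw [← E.D_ev 3 0 (by decide), g.2.1]
        · rw [← E.D_ev 3 1 (by decide), g.2.2.1]
        · rw [← E.D_ev 3 2 (by decide), g.2.2.2]⟩
      map_add' := fun g g' => Subtype.ext (map_add _ _ _)
      map_smul' := fun c g => Subtype.ext ((E.D 3).map_smul c (g : O)) }
    (fun g g' => Subtype.ext ((E.D 3).leibniz (g : O) (g' : O)))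

theorem dT_coe (g : E.T) : ((dT E g : E.T) : O) = E.D 3 (g : O) := rfl

/-- The coordinate `t`. -/
def τ : E.T := ⟨E.v 3, E.ev_ne 0 3 (by decide), E.ev_ne 1 3 (by decide), E.ev_ne 2 3 (by decide)⟩

theorem τ_pow (n : ℕ) : ((τ E ^ n : E.T) : O) = E.v 3 ^ n := rfl

/-- The class of `x^i y^j z^k φ(t)`. -/
def clT (i j k : ℕ) : E.T →ₗ[ℂ] GM E.D E.F :=
  cls E.D E.F ∘ₗ LinearMap.mulLeft ℂ (E.v 0 ^ i * E.v 1 ^ j * E.v 2 ^ k) ∘ₗ E.T.val.toLinearMap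

theorem clT_apply (i j k : ℕ) (φ : E.T) : clT E i j k φ = cl E i j k (φ : O) := rfl

theorem clT_pow (i j k l : ℕ) :
    clT E i j k (τ E ^ l) = cls E.D E.F (E.mon (i + 1, j + 1, k + 1, l + 1)) := rfl

/-- The span of the classes of the monomials in `B4`. -/
def S : Submodule ℂ⟦X⟧ (GM E.D E.F) :=
  Submodule.span ℂ⟦X⟧ (Set.range fun p : B4 => cls E.D E.F (E.mon p))

theorem mem_S_of_B4 {p : ℕ × ℕ × ℕ × ℕ} (hp : p ∈ B4) : cls E.D E.F (E.mon p) ∈ S E :=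
  Submodule.subset_span ⟨⟨p, hp⟩, rfl⟩

theorem mem_B4 {a b c d : ℕ} : (a, b, c, d) ∈ B4 ↔
    ((((a = 1 ∧ (1 ≤ b ∧ b ≤ 3) ∧ (1 ≤ c ∧ c ≤ 5) ∧ (1 ≤ d ∧ d ≤ 18)) ∨
      (a = 2 ∧ b = 1 ∧ (1 ≤ c ∧ c ≤ 4) ∧ (1 ≤ d ∧ d ≤ 18))) ∧ d ≤ 13 + fl a b c) ∨
    (a = 1 ∧ (1 ≤ b ∧ b ≤ 3) ∧ (6 ≤ c ∧ c ≤ 10) ∧ (1 ≤ d ∧ d ≤ 5)) ∨
    (a = 2 ∧ b = 1 ∧ (6 ≤ c ∧ c ≤ 9) ∧ (1 ≤ d ∧ d ≤ 5)) ∨
    (((a = 1 ∧ (1 ≤ b ∧ b ≤ 3) ∧ (11 ≤ c ∧ c ≤ 15) ∧ (1 ≤ d ∧ d ≤ 5)) ∨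
      (a = 2 ∧ b = 1 ∧ (11 ≤ c ∧ c ≤ 14) ∧ (1 ≤ d ∧ d ≤ 5))) ∧ fl a b (c - 10) < d) ∨
    (a = 2 ∧ b = 1 ∧ c = 5 ∧ (1 ≤ d ∧ d ≤ 6)) ∨
    (a = 2 ∧ b = 1 ∧ c = 10 ∧ (1 ≤ d ∧ d ≤ 5))) := by
  simp only [B4, Finset.mem_union, Finset.mem_filter, Finset.mem_product, Finset.mem_singleton,
    Finset.mem_Icc, or_assoc]

theorem mem_W4 {a b c d : ℕ} : (a, b, c, d) ∈ W4 ↔
    ((a = 1 ∧ (1 ≤ b ∧ b ≤ 3) ∧ (1 ≤ c ∧ c ≤ 5) ∧ (1 ≤ d ∧ d ≤ 12)) ∨
    (a = 1 ∧ (1 ≤ b ∧ b ≤ 3) ∧ (6 ≤ c ∧ c ≤ 10) ∧ (1 ≤ d ∧ d ≤ 11)) ∨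
    (a = 2 ∧ b = 1 ∧ (1 ≤ c ∧ c ≤ 4) ∧ (1 ≤ d ∧ d ≤ 12)) ∨
    (a = 2 ∧ b = 1 ∧ (5 ≤ c ∧ c ≤ 9) ∧ (1 ≤ d ∧ d ≤ 11))) := by
  simp only [W4, Finset.mem_union, Finset.mem_product, Finset.mem_singleton,
    Finset.mem_Icc, or_assoc]

theorem mem_B4_X {a b c d : ℕ} (h : (a = 1 ∧ 1 ≤ b ∧ b ≤ 3 ∧ c ≤ 5) ∨ (a = 2 ∧ b = 1 ∧ c ≤ 4))
    (hc : 1 ≤ c) (hd : 1 ≤ d) (hdf : d ≤ 13 + fl a b c) : (a, b, c, d) ∈ B4 := by
  rw [mem_B4]
  left
  have hf : fl a b c = (6 * c + a - 2 * b) / 5 := rfl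
  refine ⟨?_, hdf⟩
  rw [hf] at hdf
  rcases h with ⟨h1, h2, h3, h4⟩ | ⟨h1, h2, h3⟩
  · left
    refine ⟨h1, ⟨h2, h3⟩, ⟨hc, h4⟩, hd, ?_⟩
    omega
  · right
    refine ⟨h1, h2, ⟨hc, h3⟩, hd, ?_⟩
    omega

theorem mem_B4_Y {a b c d : ℕ} (h : (a = 1 ∧ 1 ≤ b ∧ b ≤ 3 ∧ c ≤ 10) ∨ (a = 2 ∧ b = 1 ∧ c ≤ 9))
    (hc : 6 ≤ c) (hd : 1 ≤ d) (hd5 : d ≤ 5) : (a, b, c, d) ∈ B4 := by
  rw [mem_B4]
  right
  rcases h with ⟨h1, h2, h3, h4⟩ | ⟨h1, h2, h3⟩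
  · left
    exact ⟨h1, ⟨h2, h3⟩, ⟨hc, h4⟩, hd, hd5⟩
  · right
    left
    exact ⟨h1, h2, ⟨hc, h3⟩, hd, hd5⟩

theorem mem_B4_Z {a b c d : ℕ} (h : (a = 1 ∧ 1 ≤ b ∧ b ≤ 3 ∧ c ≤ 15) ∨ (a = 2 ∧ b = 1 ∧ c ≤ 14))
    (hc : 11 ≤ c) (hd : 1 ≤ d) (hd5 : d ≤ 5) (hdf : fl a b (c - 10) < d) : (a, b, c, d) ∈ B4 := by
  rw [mem_B4]
  right
  right
  right
  left
  refine ⟨?_, hdf⟩
  rcases h with ⟨h1, h2, h3, h4⟩ | ⟨h1, h2, h3⟩
  · left
    exact ⟨h1, ⟨h2, h3⟩, ⟨hc, h4⟩, hd, hd5⟩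
  · right
    exact ⟨h1, h2, ⟨hc, h3⟩, hd, hd5⟩

/-- The middle classes of a standard sector are in the span. -/
theorem sector (i j k : ℕ) (h : (i = 0 ∧ j ≤ 2 ∧ k ≤ 4) ∨ (i = 1 ∧ j = 0 ∧ k ≤ 3)) (l : ℕ)
    (hl : l < 11) : cls E.D E.F (E.mon (i + 1, j + 1, k + 5 + 1, l + 1)) ∈ S E := by
  have hf : fl (i + 1) (j + 1) (k + 1) = (6 * (k + 1) + (i + 1) - 2 * (j + 1)) / 5 := rfl
  refine red_span (τ E) (dT E) ?_ (clT E i j k) (clT E i j (k + 5)) (clT E i j (k + 10))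
    (((k : ℚ) + 1) - (2 * ((j : ℚ) + 1) - ((i : ℚ) + 1)) / 6) (fl (i + 1) (j + 1) (k + 1)) ?_ ?_ ?_
    (S E) ?_ ?_ ?_ l hl
  · exact Subtype.ext (E.D_self 3)
  · rw [hf]; omega
  · intro ψ
    exact rel_t E i j k (ψ : O)
  · intro ψ
    have := rel_z E i j k (ψ : O) ψ.2
    push_cast
    exact this
  · intro m hm
    rw [clT_pow]
    exact mem_S_of_B4 E (mem_B4_X (by omega) (by omega) (by omega) (by omega))
  · intro m hm
    rw [clT_pow]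
    exact mem_S_of_B4 E (mem_B4_Y (by omega) (by omega) (by omega) (by omega))
  · intro m hm hm'
    rw [clT_pow]
    refine mem_S_of_B4 E (mem_B4_Z (by omega) (by omega) (by omega) (by omega) ?_)
    rw [show k + 10 + 1 - 10 = k + 1 by omega]
    omega

theorem W4_mem_S {p : ℕ × ℕ × ℕ × ℕ} (hp : p ∈ W4) : cls E.D E.F (E.mon p) ∈ S E := by
  obtain ⟨a, b, c, d⟩ := p
  rcases mem_W4.1 hp with ⟨ha, hb, hc, hd⟩ | ⟨ha, hb, hc, hd⟩ | ⟨ha, hb, hc, hd⟩ | ⟨ha, hb, hc, hd⟩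
  · exact mem_S_of_B4 E (mem_B4.2 (Or.inl ⟨Or.inl ⟨ha, hb, hc, by omega⟩, by omega⟩))
  · obtain ⟨c, rfl⟩ : ∃ c', c = c' + 5 + 1 := ⟨c - 6, by omega⟩
    obtain ⟨b, rfl⟩ : ∃ b', b = b' + 1 := ⟨b - 1, by omega⟩
    obtain ⟨d, rfl⟩ : ∃ d', d = d' + 1 := ⟨d - 1, by omega⟩
    subst ha
    exact sector E 0 b c (by omega) d (by omega)
  · exact mem_S_of_B4 E (mem_B4.2 (Or.inl ⟨Or.inr ⟨ha, hb, hc, by omega⟩, by omega⟩))
  · subst ha hb
    rcases Nat.lt_or_ge c 6 with h6 | h6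
    · have hc5 : c = 5 := by omega
      subst hc5
      rcases Nat.lt_or_ge d 7 with h7 | h7
      · refine mem_S_of_B4 E (mem_B4.2 ?_)
        right
        right
        right
        right
        left
        exact ⟨rfl, rfl, rfl, hd.1, by omega⟩
      · obtain ⟨d, rfl⟩ : ∃ d', d = d' + 7 := ⟨d - 7, by omega⟩
        have h1 := rel_z0 E (E.v 3 ^ d) (τ E ^ d).2
        have h2 : cl E 1 0 9 (E.v 3 ^ d) = cls E.D E.F (E.mon (2, 1, 10, d + 1)) := rfl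
        have h3 : cl E 1 0 4 (E.v 3 ^ 6 * E.v 3 ^ d) = cls E.D E.F (E.mon (2, 1, 5, d + 7)) := by
          rw [← pow_add, add_comm 6 d]
          rfl
        rw [h2, h3] at h1
        have h4 : cls E.D E.F (E.mon (2, 1, 10, d + 1)) ∈ S E := by
          refine mem_S_of_B4 E (mem_B4.2 ?_)
          right
          right
          right
          right
          right
          exact ⟨rfl, rfl, rfl, by omega, by omega⟩
        have h5 : cls E.D E.F (E.mon (2, 1, 5, d + 7))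
            = algebraMap ℂ ℂ⟦X⟧ (-2 : ℂ) • cls E.D E.F (E.mon (2, 1, 10, d + 1)) := by
          rw [algebraMap_smul]
          have h6 : (5 : ℂ) • (cls E.D E.F (E.mon (2, 1, 5, d + 7))
              - (-2 : ℂ) • cls E.D E.F (E.mon (2, 1, 10, d + 1))) = 0 := by
            rw [← h1, smul_sub, smul_smul, sub_eq_add_neg, ← neg_smul, add_comm]
            norm_num
          rcases smul_eq_zero.1 h6 with h7 | h7
          · norm_num at h7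
          · exact sub_eq_zero.1 h7
        rw [h5]
        exact Submodule.smul_mem _ _ h4
    · obtain ⟨c, rfl⟩ : ∃ c', c = c' + 5 + 1 := ⟨c - 6, by omega⟩
      obtain ⟨d, rfl⟩ : ∃ d', d = d' + 1 := ⟨d - 1, by omega⟩
      exact sector E 1 0 c (by omega) d (by omega)

theorem S_eq : S E = brieskorn E.D E.F := by
  apply le_antisymm
  · refine Submodule.span_le.2 ?_
    rintro _ ⟨p, rfl⟩
    exact cls_mem E.D E.F _
  · intro g hg
    obtain ⟨φ, hφ⟩ := gt_span E.D E.F (fun p : W4 => E.mon p) (rb_span E) g hg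
    rw [hφ]
    exact Submodule.sum_mem _ fun p _ => Submodule.smul_mem _ _ (W4_mem_S E p.2)

theorem li_W4 : LinearIndependent ℂ⟦X⟧ (fun p : W4 => cls E.D E.F (E.mon p)) := by
  rw [Fintype.linearIndependent_iff]
  intro φ hφ p
  exact congrFun (gt_indep E.D E.F (fun p : W4 => E.mon p) E.D_comm (rb_reg E) (rb_indep E) φ hφ) p

theorem span_W4 : Submodule.span ℂ⟦X⟧ (Set.range fun p : W4 => cls E.D E.F (E.mon p)) = S E := by
  apply le_antisymm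
  · refine Submodule.span_le.2 ?_
    rintro _ ⟨p, rfl⟩
    exact W4_mem_S E p.2
  · intro g hg
    rw [S_eq] at hg
    obtain ⟨φ, hφ⟩ := gt_span E.D E.F (fun p : W4 => E.mon p) (rb_span E) g hg
    rw [hφ]
    exact Submodule.sum_mem _ fun p _ => Submodule.smul_mem _ _ (Submodule.subset_span ⟨p, rfl⟩)

/-- A product block of exponents. -/
def Bx (a b b' c c' d' : ℕ) : Finset (ℕ × ℕ × ℕ × ℕ) :=
  {a} ×ˢ Finset.Icc b b' ×ˢ Finset.Icc c c' ×ˢ Finset.Icc 1 d'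

theorem card_Bx (a b b' c c' d' : ℕ) :
    (Bx a b b' c c' d').card = (b' + 1 - b) * ((c' + 1 - c) * d') := by
  simp only [Bx, Finset.card_product, Finset.card_singleton, Nat.card_Icc, one_mul,
    Nat.add_sub_cancel]

theorem disj_Bx {a b b' c c' d' e f f' g g' h' : ℕ} (h : a ≠ e ∨ c' < g ∨ g' < c)
    {s t : Finset (ℕ × ℕ × ℕ × ℕ)} (hs : s ⊆ Bx a b b' c c' d') (ht : t ⊆ Bx e f f' g g' h') :
    Disjoint s t := by
  rw [Finset.disjoint_left]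
  intro p hp hp'
  have h1 := hs hp
  have h2 := ht hp'
  simp only [Bx, Finset.mem_product, Finset.mem_singleton, Finset.mem_Icc] at h1 h2
  omega

theorem card_W4 : W4.card = 448 := by
  have h : W4 = Bx 1 1 3 1 5 12 ∪ Bx 1 1 3 6 10 11 ∪ Bx 2 1 1 1 4 12 ∪ Bx 2 1 1 5 9 11 := rfl
  have d1 := disj_Bx (a := 1) (b := 1) (b' := 3) (c := 1) (c' := 5) (d' := 12)
    (e := 1) (f := 1) (f' := 3) (g := 6) (g' := 10) (h' := 11) (by omega) subset_rfl subset_rfl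
  have d2 := disj_Bx (a := 1) (b := 1) (b' := 3) (c := 1) (c' := 5) (d' := 12)
    (e := 2) (f := 1) (f' := 1) (g := 1) (g' := 4) (h' := 12) (by omega) subset_rfl subset_rfl
  have d3 := disj_Bx (a := 1) (b := 1) (b' := 3) (c := 6) (c' := 10) (d' := 11)
    (e := 2) (f := 1) (f' := 1) (g := 1) (g' := 4) (h' := 12) (by omega) subset_rfl subset_rfl
  have d4 := disj_Bx (a := 1) (b := 1) (b' := 3) (c := 1) (c' := 5) (d' := 12)
    (e := 2) (f := 1) (f' := 1) (g := 5) (g' := 9) (h' := 11) (by omega) subset_rfl subset_rfl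
  have d5 := disj_Bx (a := 1) (b := 1) (b' := 3) (c := 6) (c' := 10) (d' := 11)
    (e := 2) (f := 1) (f' := 1) (g := 5) (g' := 9) (h' := 11) (by omega) subset_rfl subset_rfl
  have d6 := disj_Bx (a := 2) (b := 1) (b' := 1) (c := 1) (c' := 4) (d' := 12)
    (e := 2) (f := 1) (f' := 1) (g := 5) (g' := 9) (h' := 11) (by omega) subset_rfl subset_rfl
  rw [h, Finset.card_union_of_disjoint, Finset.card_union_of_disjoint,
    Finset.card_union_of_disjoint d1]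
  · simp only [card_Bx]
  · exact Finset.disjoint_union_left.2 ⟨d2, d3⟩
  · exact Finset.disjoint_union_left.2 ⟨Finset.disjoint_union_left.2 ⟨d4, d5⟩, d6⟩

/-- The condition of the first part of `B4`. -/
abbrev cX (p : ℕ × ℕ × ℕ × ℕ) : Prop := p.2.2.2 ≤ 13 + fl p.1 p.2.1 p.2.2.1

/-- The condition of the third part of `B4`. -/
abbrev cZ (p : ℕ × ℕ × ℕ × ℕ) : Prop := fl p.1 p.2.1 (p.2.2.1 - 10) < p.2.2.2

theorem card_1 : ((Bx 1 1 3 1 5 18).filter cX).card = 234 := by decide +kernel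

theorem card_2 : ((Bx 2 1 1 1 4 18).filter cX).card = 62 := by decide +kernel

theorem card_5 : ((Bx 1 1 3 11 15 5).filter cZ).card = 36 := by decide +kernel

theorem card_6 : ((Bx 2 1 1 11 14 5).filter cZ).card = 10 := by decide +kernel

theorem card_B4 : B4.card = 448 := by
  have h : B4 = ((Bx 1 1 3 1 5 18).filter cX ∪ (Bx 2 1 1 1 4 18).filter cX) ∪ Bx 1 1 3 6 10 5
      ∪ Bx 2 1 1 6 9 5 ∪ ((Bx 1 1 3 11 15 5).filter cZ ∪ (Bx 2 1 1 11 14 5).filter cZ)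
      ∪ Bx 2 1 1 5 5 6 ∪ Bx 2 1 1 10 10 5 := by
    rw [← Finset.filter_union, ← Finset.filter_union]
    rfl
  have f1 : (Bx 1 1 3 1 5 18).filter cX ⊆ Bx 1 1 3 1 5 18 := Finset.filter_subset _ _
  have f2 : (Bx 2 1 1 1 4 18).filter cX ⊆ Bx 2 1 1 1 4 18 := Finset.filter_subset _ _
  have f3 : Bx 1 1 3 6 10 5 ⊆ Bx 1 1 3 6 10 5 := subset_rfl
  have f4 : Bx 2 1 1 6 9 5 ⊆ Bx 2 1 1 6 9 5 := subset_rfl
  have f5 : (Bx 1 1 3 11 15 5).filter cZ ⊆ Bx 1 1 3 11 15 5 := Finset.filter_subset _ _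
  have f6 : (Bx 2 1 1 11 14 5).filter cZ ⊆ Bx 2 1 1 11 14 5 := Finset.filter_subset _ _
  have f7 : Bx 2 1 1 5 5 6 ⊆ Bx 2 1 1 5 5 6 := subset_rfl
  have f8 : Bx 2 1 1 10 10 5 ⊆ Bx 2 1 1 10 10 5 := subset_rfl
  rw [h, Finset.card_union_of_disjoint, Finset.card_union_of_disjoint,
    Finset.card_union_of_disjoint, Finset.card_union_of_disjoint, Finset.card_union_of_disjoint,
    Finset.card_union_of_disjoint (disj_Bx (by omega) f1 f2),
    Finset.card_union_of_disjoint (disj_Bx (by omega) f5 f6), card_1, card_2, card_5, card_6]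
  · simp only [card_Bx]
  all_goals
    simp only [Finset.disjoint_union_left, Finset.disjoint_union_right]
  · exact ⟨disj_Bx (by omega) f1 f3, disj_Bx (by omega) f2 f3⟩
  · exact ⟨⟨disj_Bx (by omega) f1 f4, disj_Bx (by omega) f2 f4⟩, disj_Bx (by omega) f3 f4⟩
  · exact ⟨⟨⟨⟨disj_Bx (by omega) f1 f5, disj_Bx (by omega) f2 f5⟩, disj_Bx (by omega) f3 f5⟩,
      disj_Bx (by omega) f4 f5⟩, ⟨⟨disj_Bx (by omega) f1 f6, disj_Bx (by omega) f2 f6⟩,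
      disj_Bx (by omega) f3 f6⟩, disj_Bx (by omega) f4 f6⟩
  · exact ⟨⟨⟨⟨disj_Bx (by omega) f1 f7, disj_Bx (by omega) f2 f7⟩, disj_Bx (by omega) f3 f7⟩,
      disj_Bx (by omega) f4 f7⟩, disj_Bx (by omega) f5 f7, disj_Bx (by omega) f6 f7⟩
  · exact ⟨⟨⟨⟨⟨disj_Bx (by omega) f1 f8, disj_Bx (by omega) f2 f8⟩, disj_Bx (by omega) f3 f8⟩,
      disj_Bx (by omega) f4 f8⟩, disj_Bx (by omega) f5 f8, disj_Bx (by omega) f6 f8⟩,
      disj_Bx (by omega) f7 f8⟩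

/-- Independence of a spanning family with the cardinality of a basis. -/
theorem li_of_span {R M ι κ : Type*} [CommRing R] [AddCommGroup M] [Module R M] [Fintype ι]
    [Fintype κ] (v : ι → M) (w : κ → M) (hv : LinearIndependent R v)
    (h : Submodule.span R (Set.range v) = Submodule.span R (Set.range w))
    (hc : Fintype.card ι = Fintype.card κ) : LinearIndependent R w := by
  classical
  obtain ⟨σ⟩ : Nonempty (ι ≃ κ) := ⟨Fintype.equivOfCardEq hc⟩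
  let W : (ι → R) →ₗ[R] Submodule.span R (Set.range v) :=
    (Fintype.linearCombination R (w ∘ σ)).codRestrict _ fun c => by
      rw [h, Fintype.linearCombination_apply]
      exact Submodule.sum_mem _ fun i _ => Submodule.smul_mem _ _ (Submodule.subset_span ⟨σ i, rfl⟩)
  have hW : Function.Surjective W := by
    rintro ⟨x, hx⟩
    rw [h, ← σ.surjective.range_comp w, ← Fintype.range_linearCombination R (w ∘ σ)] at hx
    obtain ⟨c, hc⟩ := hx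
    exact ⟨c, Subtype.ext hc⟩
  let b := Module.Basis.span hv
  have h1 : Function.Surjective (b.equivFun.toLinearMap ∘ₗ W) :=
    b.equivFun.surjective.comp hW
  have h2 := OrzechProperty.injective_of_surjective_endomorphism _ h1
  rw [Fintype.linearIndependent_iff]
  intro g hg i
  have h3 : (b.equivFun.toLinearMap ∘ₗ W) (g ∘ σ) = (b.equivFun.toLinearMap ∘ₗ W) 0 := by
    have : W (g ∘ σ) = 0 := by
      apply Subtype.ext
      change Fintype.linearCombination R (w ∘ σ) (g ∘ σ) = 0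
      rw [Fintype.linearCombination_apply, ← hg]
      exact σ.sum_comp fun k => g k • w k
    rw [map_zero, LinearMap.comp_apply, this, map_zero]
  have h4 := congrFun (h2 h3) (σ.symm i)
  simpa using h4

end AsmBasis

open AsmBasis

/-- ASM1: the classes of the monomials in `B4` form a basis of the Brieskorn lattice. -/
theorem asm_basis :
    LinearIndependent ℂ⟦X⟧ (fun p : B4 => cls E.D E.F (E.mon p)) ∧
    Submodule.span ℂ⟦X⟧ (Set.range fun p : B4 => cls E.D E.F (E.mon p)) = brieskorn E.D E.F := by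
  refine ⟨?_, S_eq E⟩
  refine li_of_span (fun p : W4 => cls E.D E.F (E.mon p)) _ (li_W4 E) (span_W4 E) ?_
  rw [Fintype.card_coe, Fintype.card_coe, card_W4, card_B4]

end

end Pool.Agent.Helper3.Hert
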